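import Pool.Agent.Helper13.Venn.Defs

/-! VD-9: sets over `W` above, below or between graphs of continuous functions. -/

namespace Pool.Agent.Helper13.Venn

open Set Metric Topology Bornology

/-- sets over `W` between (or above, below) graphs of continuous functions -/
theorem fibre_above {X : Type*} [TopologicalSpace X] (W : Set X) (u : X → ℝ)
    (hu : ContinuousOn u W) :
    Nonempty ({q : X × ℝ | q.1 ∈ W ∧ u q.1 < q.2} ≃ₜ W × ℝ) := by
  refine ⟨{
    toFun := fun q => (⟨q.1.1, q.2.1⟩, Real.log (q.1.2 - u q.1.1))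
    invFun := fun w => ⟨(w.1.1, u w.1.1 + Real.exp w.2), w.1.2, by
      have := Real.exp_pos w.2
      show u w.1.1 < u w.1.1 + Real.exp w.2
      linarith⟩
    left_inv := ?_
    right_inv := ?_
    continuous_toFun := ?_
    continuous_invFun := ?_ }⟩
  · rintro ⟨⟨x, t⟩, hx, ht⟩
    have ht' : u x < t := ht
    apply Subtype.ext
    show (x, u x + Real.exp (Real.log (t - u x))) = (x, t)
    rw [Real.exp_log (by linarith)]
    simp
  · rintro ⟨⟨x, hx⟩, t⟩
    show ((⟨x, hx⟩ : W), Real.log (u x + Real.exp t - u x)) = (⟨x, hx⟩, t)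
    rw [add_sub_cancel_left, Real.log_exp]
  · have hc : Continuous fun q : {q : X × ℝ | q.1 ∈ W ∧ u q.1 < q.2} => u q.1.1 :=
      hu.comp_continuous (continuous_fst.comp continuous_subtype_val) (fun q => q.2.1)
    refine Continuous.prodMk ?_ ?_
    · exact (continuous_fst.comp continuous_subtype_val).subtype_mk _
    · refine Continuous.log ((continuous_snd.comp continuous_subtype_val).sub hc) ?_
      rintro ⟨⟨x, t⟩, hx, ht⟩
      have ht' : u x < t := ht
      show t - u x ≠ 0
      intro h0
      linarith
  · have hc : Continuous fun w : W × ℝ => u w.1.1 :=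
      hu.comp_continuous (continuous_subtype_val.comp continuous_fst) (fun w => w.1.2)
    refine Continuous.subtype_mk ?_ _
    exact (continuous_subtype_val.comp continuous_fst).prodMk
      (hc.add (Real.continuous_exp.comp continuous_snd))

theorem fibre_below {X : Type*} [TopologicalSpace X] (W : Set X) (u : X → ℝ)
    (hu : ContinuousOn u W) :
    Nonempty ({q : X × ℝ | q.1 ∈ W ∧ q.2 < u q.1} ≃ₜ W × ℝ) := by
  refine ⟨{
    toFun := fun q => (⟨q.1.1, q.2.1⟩, Real.log (u q.1.1 - q.1.2))
    invFun := fun w => ⟨(w.1.1, u w.1.1 - Real.exp w.2), w.1.2, by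
      have := Real.exp_pos w.2
      show u w.1.1 - Real.exp w.2 < u w.1.1
      linarith⟩
    left_inv := ?_
    right_inv := ?_
    continuous_toFun := ?_
    continuous_invFun := ?_ }⟩
  · rintro ⟨⟨x, t⟩, hx, ht⟩
    have ht' : t < u x := ht
    apply Subtype.ext
    show (x, u x - Real.exp (Real.log (u x - t))) = (x, t)
    rw [Real.exp_log (by linarith)]
    simp
  · rintro ⟨⟨x, hx⟩, t⟩
    show ((⟨x, hx⟩ : W), Real.log (u x - (u x - Real.exp t))) = (⟨x, hx⟩, t)
    rw [sub_sub_cancel, Real.log_exp]
  · have hc : Continuous fun q : {q : X × ℝ | q.1 ∈ W ∧ q.2 < u q.1} => u q.1.1 :=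
      hu.comp_continuous (continuous_fst.comp continuous_subtype_val) (fun q => q.2.1)
    refine Continuous.prodMk ?_ ?_
    · exact (continuous_fst.comp continuous_subtype_val).subtype_mk _
    · refine Continuous.log (hc.sub (continuous_snd.comp continuous_subtype_val)) ?_
      rintro ⟨⟨x, t⟩, hx, ht⟩
      have ht' : t < u x := ht
      show u x - t ≠ 0
      intro h0
      linarith
  · have hc : Continuous fun w : W × ℝ => u w.1.1 :=
      hu.comp_continuous (continuous_subtype_val.comp continuous_fst) (fun w => w.1.2)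
    refine Continuous.subtype_mk ?_ _
    exact (continuous_subtype_val.comp continuous_fst).prodMk
      (hc.sub (Real.continuous_exp.comp continuous_snd))

theorem fibre_between {X : Type*} [TopologicalSpace X] (W : Set X) (l u : X → ℝ)
    (hl : ContinuousOn l W) (hu : ContinuousOn u W) (hlu : ∀ x ∈ W, l x < u x) :
    Nonempty ({q : X × ℝ | q.1 ∈ W ∧ l q.1 < q.2 ∧ q.2 < u q.1} ≃ₜ W × ℝ) := by
  have key : ∀ (a b s : ℝ), a < b → 0 < s →
      a < (a + b * s) / (1 + s) ∧ (a + b * s) / (1 + s) < b ∧
        ((a + b * s) / (1 + s) - a) / (b - (a + b * s) / (1 + s)) = s := by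
    intro a b s hab hs
    have h1 : 0 < 1 + s := by linarith
    have e1 : (a + b * s) / (1 + s) - a = (b - a) * s / (1 + s) := by
      field_simp
      ring
    have e2 : b - (a + b * s) / (1 + s) = (b - a) / (1 + s) := by
      field_simp
      ring
    have p1 : 0 < (b - a) * s / (1 + s) := div_pos (mul_pos (by linarith) hs) h1
    have p2 : 0 < (b - a) / (1 + s) := div_pos (by linarith) h1
    refine ⟨by linarith, by linarith, ?_⟩
    rw [e1, e2]
    have h2 : b - a ≠ 0 := by
      intro h0
      linarith
    field_simp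
  refine ⟨{
    toFun := fun q => (⟨q.1.1, q.2.1⟩, Real.log ((q.1.2 - l q.1.1) / (u q.1.1 - q.1.2)))
    invFun := fun w => ⟨(w.1.1, (l w.1.1 + u w.1.1 * Real.exp w.2) / (1 + Real.exp w.2)), w.1.2,
      (key _ _ _ (hlu _ w.1.2) (Real.exp_pos w.2)).1,
      (key _ _ _ (hlu _ w.1.2) (Real.exp_pos w.2)).2.1⟩
    left_inv := ?_
    right_inv := ?_
    continuous_toFun := ?_
    continuous_invFun := ?_ }⟩
  · rintro ⟨⟨x, t⟩, hx, ht, ht'⟩
    have h1 : 0 < t - l x := sub_pos.2 ht
    have h2 : 0 < u x - t := sub_pos.2 ht'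
    apply Subtype.ext
    show (x, (l x + u x * Real.exp (Real.log ((t - l x) / (u x - t)))) /
      (1 + Real.exp (Real.log ((t - l x) / (u x - t))))) = (x, t)
    rw [Real.exp_log (div_pos h1 h2)]
    have h3 : u x - l x ≠ 0 := by
      intro h0
      linarith
    have h4 : (1 : ℝ) + (t - l x) / (u x - t) = (u x - l x) / (u x - t) := by
      field_simp
      ring
    have h5 : l x + u x * ((t - l x) / (u x - t)) = t * (u x - l x) / (u x - t) := by
      field_simp
      ring
    rw [h4, h5, div_div_div_cancel_right₀ h2.ne', mul_div_cancel_right₀ _ h3]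
  · rintro ⟨⟨x, hx⟩, t⟩
    have := (key _ _ _ (hlu x hx) (Real.exp_pos t)).2.2
    show ((⟨x, hx⟩ : W), Real.log (((l x + u x * Real.exp t) / (1 + Real.exp t) - l x) /
      (u x - (l x + u x * Real.exp t) / (1 + Real.exp t)))) = (⟨x, hx⟩, t)
    rw [this, Real.log_exp]
  · have hcl : Continuous fun q : {q : X × ℝ | q.1 ∈ W ∧ l q.1 < q.2 ∧ q.2 < u q.1} => l q.1.1 :=
      hl.comp_continuous (continuous_fst.comp continuous_subtype_val) (fun q => q.2.1)
    have hcu : Continuous fun q : {q : X × ℝ | q.1 ∈ W ∧ l q.1 < q.2 ∧ q.2 < u q.1} => u q.1.1 :=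
      hu.comp_continuous (continuous_fst.comp continuous_subtype_val) (fun q => q.2.1)
    refine Continuous.prodMk ?_ ?_
    · exact (continuous_fst.comp continuous_subtype_val).subtype_mk _
    · refine Continuous.log (Continuous.div
        ((continuous_snd.comp continuous_subtype_val).sub hcl)
        (hcu.sub (continuous_snd.comp continuous_subtype_val)) ?_) ?_
      · rintro ⟨⟨x, t⟩, hx, ht, ht'⟩
        have h2 : 0 < u x - t := sub_pos.2 ht'
        exact h2.ne'
      · rintro ⟨⟨x, t⟩, hx, ht, ht'⟩
        have h1 : 0 < t - l x := sub_pos.2 ht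
        have h2 : 0 < u x - t := sub_pos.2 ht'
        exact (div_pos h1 h2).ne'
  · have hcl : Continuous fun w : W × ℝ => l w.1.1 :=
      hl.comp_continuous (continuous_subtype_val.comp continuous_fst) (fun w => w.1.2)
    have hcu : Continuous fun w : W × ℝ => u w.1.1 :=
      hu.comp_continuous (continuous_subtype_val.comp continuous_fst) (fun w => w.1.2)
    have he : Continuous fun w : W × ℝ => Real.exp w.2 :=
      Real.continuous_exp.comp continuous_snd
    refine Continuous.subtype_mk ?_ _
    refine (continuous_subtype_val.comp continuous_fst).prodMk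
      ((hcl.add (hcu.mul he)).div (continuous_const.add he) fun w => ?_)
    have := Real.exp_pos w.2
    intro h0
    linarith

end Pool.Agent.Helper13.Venn
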