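import Pool.Agent.Helper13.Venn.Defs

/-! VD-2: coordinate great subspheres of the unit sphere of `ℝ^5`. -/

namespace Pool.Agent.Helper13.Venn

open Set Metric Topology Bornology

theorem great_sphere (J : Finset (Fin 5)) :
    Nonempty ({p : E 5 | ‖p‖ = 1 ∧ ∀ j ∈ J, p j = 0} ≃ₜ sphere (0 : E (5 - J.card)) 1) := by
  have hcard : (Jᶜ).card = 5 - J.card := by
    rw [Finset.card_compl, Fintype.card_fin]
  let e : Fin (5 - J.card) ≃ (Jᶜ : Finset (Fin 5)) := ((Jᶜ).orderIsoOfFin hcard).toEquiv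
  have hsum : ∀ f : Fin 5 → ℝ, (∀ j ∈ J, f j = 0) →
      ∑ i, f (e i) = ∑ j, f j := by
    intro f hf
    rw [e.sum_comp (fun j => f j), Finset.sum_coe_sort (Jᶜ) f]
    refine Finset.sum_subset (Finset.subset_univ _) fun x _ hx => hf x ?_
    simpa using hx
  refine ⟨{
    toFun := fun p => ⟨WithLp.toLp 2 (fun i => p.1 (e i)), ?_⟩
    invFun := fun q => ⟨WithLp.toLp 2
      (fun j => if h : j ∈ Jᶜ then q.1 (e.symm ⟨j, h⟩) else 0), ?_, ?_⟩
    left_inv := ?_
    right_inv := ?_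
    continuous_toFun := ?_
    continuous_invFun := ?_ }⟩
  · obtain ⟨p, hp, hp'⟩ := p
    rw [mem_sphere_zero_iff_norm]
    refine Eq.trans ?_ hp
    show ‖WithLp.toLp 2 (fun i => p (e i))‖ = ‖p‖
    rw [EuclideanSpace.norm_eq, EuclideanSpace.norm_eq]
    congr 1
    exact hsum (fun j => ‖p j‖ ^ 2) (fun j hj => by simp [hp' j hj])
  · obtain ⟨q, hq⟩ := q
    rw [mem_sphere_zero_iff_norm] at hq
    refine Eq.trans ?_ hq
    show ‖WithLp.toLp 2 (fun j => if h : j ∈ Jᶜ then q (e.symm ⟨j, h⟩) else 0)‖ = ‖q‖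
    rw [EuclideanSpace.norm_eq, EuclideanSpace.norm_eq]
    congr 1
    have := hsum (fun j => ‖(if h : j ∈ Jᶜ then q (e.symm ⟨j, h⟩) else 0 : ℝ)‖ ^ 2)
      (fun j hj => by simp [hj])
    rw [← this]
    refine Finset.sum_congr rfl fun i _ => ?_
    rw [dif_pos (e i).2]
    simp
  · intro j hj
    simp [hj]
  · rintro ⟨p, hp, hp'⟩
    apply Subtype.ext
    ext j
    by_cases h : j ∈ J
    · simp [h, hp' j h]
    · have h' : j ∈ Jᶜ := by simpa using h
      simp [h]
  · rintro ⟨q, hq⟩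
    apply Subtype.ext
    ext i
    simp
  · refine Continuous.subtype_mk ?_ _
    refine (PiLp.continuous_toLp 2 _).comp (continuous_pi fun i => ?_)
    fun_prop
  · refine Continuous.subtype_mk ?_ _
    refine (PiLp.continuous_toLp 2 _).comp (continuous_pi fun j => ?_)
    by_cases h : j ∈ Jᶜ
    · simp only [h, dif_pos]
      fun_prop
    · simp only [h, dif_neg, not_false_eq_true]
      fun_prop

end Pool.Agent.Helper13.Venn
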